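import Pool.Agent.helper96.S5.SpecR

set_option autoImplicit false

namespace S5

open PF

noncomputable section

open Classical

theorem CAS_count : Computable fun x : List ℕ × ℕ => x.1.count x.2 := by
  have h : Primrec₂ fun (L : List ℕ) (b : ℕ) => L.filter (fun a => a = b) :=
    PrimrecRel.listFilter (R := fun a b : ℕ => a = b) Primrec.eq
  have h2 : Primrec fun x : List ℕ × ℕ => (x.1.filter (fun a => a = x.2)).length :=
    Primrec.list_length.comp (h.comp Primrec.fst Primrec.snd)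
  refine h2.to_comp.of_eq fun x => ?_
  rw [List.count_eq_length_filter]
  rfl

theorem CAS_cnt {α : Type} [Primcodable α] {f : α → List ℕ} {g : α → ℕ} (hf : Computable f)
    (hg : Computable g) : Computable fun x => (f x).count (g x) :=
  CAS_count.comp (g := fun x => (f x, g x)) (hf.pair hg)

theorem CAS_ent {α : Type} [Primcodable α] {f : α → List ℕ} {g : α → ℕ} (hf : Computable f)
    (hg : Computable g) : Computable fun x => ent (f x) (g x) :=
  ent_computable.comp (g := fun x => (f x, g x)) (hf.pair hg)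

theorem CAS_cn (B : BD) (hB : B.Cp) {α : Type} [Primcodable α] {i k s : α → ℕ} (hi : Computable i)
    (hk : Computable k) (hs : Computable s) : Computable fun x => B.cn (i x) (k x) (s x) :=
  hB.cn.comp (g := fun x => (i x, k x, s x)) (hi.pair (hk.pair hs))

theorem CAS_row (hCHS : CHS_stmt) (hCPR : CPR_stmt) : CAS_stmt := by
  intro B hB hl
  obtain ⟨-, hfit, hbig⟩ := hCPR B hB hl
  -- projections for `x : ((ℕ × ℕ) × List ℕ) × ℕ`
  have ck : Computable fun x : ((ℕ × ℕ) × List ℕ) × ℕ => x.1.1.1 :=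
    Computable.fst.comp (Computable.fst.comp Computable.fst)
  have cu : Computable fun x : ((ℕ × ℕ) × List ℕ) × ℕ => x.1.1.2 :=
    Computable.snd.comp (Computable.fst.comp Computable.fst)
  have cH : Computable fun x : ((ℕ × ℕ) × List ℕ) × ℕ => x.1.2 := Computable.snd.comp Computable.fst
  have cj : Computable fun x : ((ℕ × ℕ) × List ℕ) × ℕ => x.2 := Computable.snd
  have cp : Computable fun x : ((ℕ × ℕ) × List ℕ) × ℕ => pcc x.2 := pcc_computable.comp cj
  have cp1 : Computable fun x : ((ℕ × ℕ) × List ℕ) × ℕ => (pcc x.2).1 := Computable.fst.comp cp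
  have cp21 : Computable fun x : ((ℕ × ℕ) × List ℕ) × ℕ => (pcc x.2).2.1 :=
    Computable.fst.comp (Computable.snd.comp cp)
  have cp22 : Computable fun x : ((ℕ × ℕ) × List ℕ) × ℕ => (pcc x.2).2.2 :=
    Computable.snd.comp (Computable.snd.comp cp)
  have cc : Computable fun x : ((ℕ × ℕ) × List ℕ) × ℕ => x.1.2.count (x.2 + 1) :=
    CAS_cnt cH (Computable.succ.comp cj)
  have hA : ComputablePred fun x : ((ℕ × ℕ) × List ℕ) × ℕ => B.pA x.1.1.1 x.1.1.2 x.1.2 x.2 := by
    unfold BD.pA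
    refine cp_and (cp_lt cj cu) (cp_and (cp_lt cc cu) (cp_and ?_ (cp_and ?_ ?_)))
    · exact cp_comp (f := fun x : ((ℕ × ℕ) × List ℕ) × ℕ => ((x.1.1.1, x.1.1.2), ((pcc x.2).1, (pcc x.2).2.1)))
        ((ck.pair cu).pair (cp1.pair cp21)) hfit
    · exact cp_comp (f := fun x : ((ℕ × ℕ) × List ℕ) × ℕ =>
        ((x.1.1.1, (pcc x.2).1), ((pcc x.2).2.1, (pcc x.2).2.2)))
        ((ck.pair cp1).pair (cp21.pair cp22)) hB.al
    · have ci : Computable fun y : (((ℕ × ℕ) × List ℕ) × ℕ) × ℕ => y.2 := Computable.snd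
      have c1 : Computable fun y : (((ℕ × ℕ) × List ℕ) × ℕ) × ℕ => ent (pcc y.1.2).1 y.2 :=
        CAS_ent (f := fun y : (((ℕ × ℕ) × List ℕ) × ℕ) × ℕ => (pcc y.1.2).1) (cp1.comp Computable.fst) ci
      have c2 : Computable fun y : (((ℕ × ℕ) × List ℕ) × ℕ) × ℕ => B.cn y.2 y.1.1.1.1 y.1.1.1.2 :=
        CAS_cn B hB (i := fun y : (((ℕ × ℕ) × List ℕ) × ℕ) × ℕ => y.2) (k := fun y => y.1.1.1.1)
          (s := fun y => y.1.1.1.2) ci (ck.comp Computable.fst) (cu.comp Computable.fst)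
      have h1 : ComputablePred fun y : (((ℕ × ℕ) × List ℕ) × ℕ) × ℕ =>
          ent (pcc y.1.2).1 y.2 ≠ 0 → y.1.1.2.count (y.1.2 + 1) < B.cn y.2 y.1.1.1.1 y.1.1.1.2 := by
        refine (cp_or (cp_eq c1 (Computable.const 0)) (cp_lt (cc.comp Computable.fst) c2)).of_eq
          fun y => ?_
        constructor
        · rintro (h | h) h0
          · exact absurd h h0
          · exact h
        · intro h
          by_cases h0 : ent (pcc y.1.2).1 y.2 = 0
          · exact Or.inl h0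
          · exact Or.inr (h h0)
      exact cp_ball (p := fun (x : ((ℕ × ℕ) × List ℕ) × ℕ) i => ent (pcc x.2).1 i ≠ 0 →
        x.1.2.count (x.2 + 1) < B.cn i x.1.1.1 x.1.1.2) h1 (Computable.list_length.comp cp1)
  refine ⟨(hCHS (fun k u H j => B.pA k u H j) (fun x => x.1.2) hA
    (Computable.snd.comp Computable.fst) (fun k t H h => ?_)).2, ?_⟩
  · obtain ⟨n, hn⟩ := h
    exact ⟨n, hn.1.le, hn⟩
  · unfold BD.dmp
    have dk : Computable fun x : (ℕ × ℕ) × ℕ => x.1.1 := Computable.fst.comp Computable.fst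
    have du : Computable fun x : (ℕ × ℕ) × ℕ => x.1.2 := Computable.snd.comp Computable.fst
    have dp : Computable fun x : (ℕ × ℕ) × ℕ => pcc x.2 := pcc_computable.comp Computable.snd
    have dp1 : Computable fun x : (ℕ × ℕ) × ℕ => (pcc x.2).1 := Computable.fst.comp dp
    have dp21 : Computable fun x : (ℕ × ℕ) × ℕ => (pcc x.2).2.1 :=
      Computable.fst.comp (Computable.snd.comp dp)
    refine cp_or ?_ ?_
    · have ci : Computable fun y : ((ℕ × ℕ) × ℕ) × ℕ => y.2 := Computable.snd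
      have c1 : Computable fun y : ((ℕ × ℕ) × ℕ) × ℕ => ent (pcc y.1.2).1 y.2 :=
        CAS_ent (f := fun y : ((ℕ × ℕ) × ℕ) × ℕ => (pcc y.1.2).1) (dp1.comp Computable.fst) ci
      have c2 : Computable fun y : ((ℕ × ℕ) × ℕ) × ℕ => B.cn y.2 y.1.1.1 y.1.1.2 :=
        CAS_cn B hB (i := fun y : ((ℕ × ℕ) × ℕ) × ℕ => y.2) (k := fun y => y.1.1.1)
          (s := fun y => y.1.1.2) ci (dk.comp Computable.fst) (du.comp Computable.fst)
      have c3 : Computable fun y : ((ℕ × ℕ) × ℕ) × ℕ => B.cn y.2 y.1.1.1 (y.1.1.2 + 1) :=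
        CAS_cn B hB (i := fun y : ((ℕ × ℕ) × ℕ) × ℕ => y.2) (k := fun y => y.1.1.1)
          (s := fun y => y.1.1.2 + 1) ci (dk.comp Computable.fst)
          (Computable.succ.comp (du.comp Computable.fst))
      exact cp_bex (p := fun (x : (ℕ × ℕ) × ℕ) i => ent (pcc x.2).1 i = 0 ∧
        B.cn i x.1.1 x.1.2 < B.cn i x.1.1 (x.1.2 + 1))
        (cp_and (cp_eq c1 (Computable.const 0)) (cp_lt c2 c3)) (Computable.list_length.comp dp1)
    · exact cp_comp (f := fun x : (ℕ × ℕ) × ℕ => ((x.1.1, x.1.2), ((pcc x.2).1, (pcc x.2).2.1)))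
        ((dk.pair du).pair (dp1.pair dp21)) hbig

end

end S5
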