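import Pool.Agent.helper96.S5.SpecR

set_option autoImplicit false

namespace S5

open PF

noncomputable section

open Classical

section

variable {α : Type} [Primcodable α]

theorem CM1_u1 {f : α → ℕ} (hf : Computable f) : Computable fun x => (f x).unpair.1 :=
  Computable.fst.comp (Primrec.unpair.to_comp.comp hf)

theorem CM1_u2 {f : α → ℕ} (hf : Computable f) : Computable fun x => (f x).unpair.2 :=
  Computable.snd.comp (Primrec.unpair.to_comp.comp hf)

theorem CM1_pair {f g : α → ℕ} (hf : Computable f) (hg : Computable g) :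
    Computable fun x => Nat.pair (f x) (g x) :=
  Primrec₂.natPair.to_comp.comp hf hg

theorem CM1_W {a s z : α → ℕ} (ha : Computable a) (hs : Computable s) (hz : Computable z) :
    ComputablePred fun x => Wst (a x) (s x) (z x) :=
  cp_comp (f := fun x => (a x, s x, z x)) (ha.pair (hs.pair hz)) Wst_computable

theorem CM1_bex {p : α → ℕ → Prop} {g : α → ℕ}
    (hp : ComputablePred (fun x : α × ℕ => p x.1 x.2)) (hg : Computable g) :
    ComputablePred (fun a => ∃ k ≤ g a, p a k) := by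
  refine (cp_bex (g := fun a => g a + 1) hp (Computable.succ.comp hg)).of_eq fun a => ?_
  constructor
  · rintro ⟨k, hk, h⟩
    exact ⟨k, Nat.le_of_lt_succ hk, h⟩
  · rintro ⟨k, hk, h⟩
    exact ⟨k, Nat.lt_succ_of_le hk, h⟩

theorem CM1_Ps (X : Cx) (hX : X.Ok) {i k z s : α → ℕ} (hi : Computable i) (hk : Computable k)
    (hz : Computable z) (hs : Computable s) : ComputablePred fun x => X.Ps (i x) (k x) (z x) (s x) := by
  unfold Cx.Ps
  have hfz : Computable fun x => X.f (z x) := hX.fc.comp hz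
  have i1 := CM1_u1 hi
  have i2 := CM1_u2 hi
  have i21 := CM1_u1 i2
  have i22 := CM1_u2 i2
  have i221 := CM1_u1 i22
  have i222 := CM1_u2 i22
  refine cp_or (cp_and (cp_eq i1 (Computable.const 0)) (cp_or (CM1_W i2 hs (CM1_pair hk hz)) ?_))
    (cp_or (cp_and (cp_eq i1 (Computable.const 1)) (cp_or (CM1_W i21 hs (CM1_pair hk hfz))
      (CM1_W i22 hs (CM1_pair hk hfz))))
      (cp_or (cp_and (cp_eq i1 (Computable.const 2)) (CM1_W i21 hs (CM1_pair i221 (CM1_pair i222 hz))))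
        (cp_and (cp_lt (Computable.const 2) i1) (cp_not ?_))))
  · exact cp_bex (p := fun x t => X.f t = z x)
      (cp_eq (hX.fc.comp Computable.snd) (hz.comp Computable.fst)) hs
  · exact cp_comp (f := fun x => ((i x).unpair.2, z x)) (i2.pair hz) hX.nc

end

theorem CM1_row : CM1_stmt := by
  intro X hX
  refine ⟨?_, ?_, ?_⟩
  · unfold Cx.cnD
    refine cp_lst (Q := fun (x : ℕ × ℕ × ℕ) z => x.2.2 ≤ z ∨ ¬ X.Ps x.1 x.2.1 z x.2.2)
      (b := fun x => x.2.2) ?_ (Computable.snd.comp Computable.snd)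
      (fun a _ => ⟨a.2.2, le_rfl, Or.inl le_rfl⟩)
    have c1 : Computable fun y : (ℕ × ℕ × ℕ) × ℕ => y.1.1 := Computable.fst.comp Computable.fst
    have c2 : Computable fun y : (ℕ × ℕ × ℕ) × ℕ => y.1.2.1 :=
      Computable.fst.comp (Computable.snd.comp Computable.fst)
    have c3 : Computable fun y : (ℕ × ℕ × ℕ) × ℕ => y.1.2.2 :=
      Computable.snd.comp (Computable.snd.comp Computable.fst)
    exact cp_or (cp_le c3 Computable.snd) (cp_not (CM1_Ps X hX c1 c2 Computable.snd c3))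
  · unfold Cx.prD
    have c1 : Computable fun x : ℕ × ℕ × ℕ => x.1 := Computable.fst
    have c2 : Computable fun x : ℕ × ℕ × ℕ => x.2.1 := Computable.fst.comp Computable.snd
    have c3 : Computable fun x : ℕ × ℕ × ℕ => x.2.2 := Computable.snd.comp Computable.snd
    refine (cp_or (cp_not (cp_eq (CM1_u1 c1) (Computable.const 0)))
      (CM1_W (CM1_u2 c1) c3 (CM1_pair c2 (hX.fc.comp c3)))).of_eq fun x => ?_
    constructor
    · rintro (h | h) h0
      · exact absurd h0 h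
      · exact h
    · intro h
      by_cases h0 : x.1.unpair.1 = 0
      · exact Or.inr (h h0)
      · exact Or.inl h0
  · show Computable fun x : (ℕ × ℕ) × ℕ × ℕ => X.dcD x.1.1 x.1.2 x.2.1 x.2.2
    have c1 : Computable fun x : (ℕ × ℕ) × ℕ × ℕ => x.1.1 := Computable.fst.comp Computable.fst
    have c2 : Computable fun x : (ℕ × ℕ) × ℕ × ℕ => x.1.2 := Computable.snd.comp Computable.fst
    have c3 : Computable fun x : (ℕ × ℕ) × ℕ × ℕ => x.2.1 := Computable.fst.comp Computable.snd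
    have c4 : Computable fun x : (ℕ × ℕ) × ℕ × ℕ => x.2.2 := Computable.snd.comp Computable.snd
    have cz : Computable fun x : (ℕ × ℕ) × ℕ × ℕ => Nat.pair x.1.2 (X.f x.2.1) :=
      CM1_pair c2 (hX.fc.comp c3)
    have ca : Computable fun x : (ℕ × ℕ) × ℕ × ℕ => x.1.1.unpair.2.unpair.1 := CM1_u1 (CM1_u2 c1)
    have cb : Computable fun x : (ℕ × ℕ) × ℕ × ℕ => x.1.1.unpair.2.unpair.2 := CM1_u2 (CM1_u2 c1)
    have h0 : ComputablePred fun x : (ℕ × ℕ) × ℕ × ℕ => x.1.1.unpair.1 = 1 :=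
      cp_eq (CM1_u1 c1) (Computable.const 1)
    have h1 : ComputablePred fun x : (ℕ × ℕ) × ℕ × ℕ => ∃ u ≤ x.2.2,
        Wst x.1.1.unpair.2.unpair.1 u (Nat.pair x.1.2 (X.f x.2.1)) ∧
        ∀ u' < u, ¬ Wst x.1.1.unpair.2.unpair.2 u' (Nat.pair x.1.2 (X.f x.2.1)) := by
      refine CM1_bex (p := fun (x : (ℕ × ℕ) × ℕ × ℕ) u =>
        Wst x.1.1.unpair.2.unpair.1 u (Nat.pair x.1.2 (X.f x.2.1)) ∧
        ∀ u' < u, ¬ Wst x.1.1.unpair.2.unpair.2 u' (Nat.pair x.1.2 (X.f x.2.1))) ?_ c4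
      refine cp_and (CM1_W (ca.comp Computable.fst) Computable.snd (cz.comp Computable.fst)) ?_
      refine cp_ball (p := fun (y : ((ℕ × ℕ) × ℕ × ℕ) × ℕ) u' =>
        ¬ Wst y.1.1.1.unpair.2.unpair.2 u' (Nat.pair y.1.1.2 (X.f y.1.2.1))) ?_ Computable.snd
      exact cp_not (CM1_W (cb.comp (Computable.fst.comp Computable.fst)) Computable.snd
        (cz.comp (Computable.fst.comp Computable.fst)))
    have h2 : ComputablePred fun x : (ℕ × ℕ) × ℕ × ℕ => ∃ u ≤ x.2.2,
        Wst x.1.1.unpair.2.unpair.2 u (Nat.pair x.1.2 (X.f x.2.1)) :=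
      CM1_bex (p := fun (x : (ℕ × ℕ) × ℕ × ℕ) u =>
        Wst x.1.1.unpair.2.unpair.2 u (Nat.pair x.1.2 (X.f x.2.1)))
        (CM1_W (cb.comp Computable.fst) Computable.snd (cz.comp Computable.fst)) c4
    have k1 := cp_ite h2 (Computable.const 1) (Computable.const (σ := ℕ) 0)
    have k2 := cp_ite h1 (Computable.const 2) k1
    have k3 := cp_ite h0 k2 (Computable.const 1)
    refine k3.of_eq fun x => ?_
    unfold Cx.dcD
    by_cases g0 : x.1.1.unpair.1 = 1
    · rw [if_pos g0, if_pos g0]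
      by_cases g1 : ∃ u ≤ x.2.2,
          Wst x.1.1.unpair.2.unpair.1 u (Nat.pair x.1.2 (X.f x.2.1)) ∧
          ∀ u' < u, ¬ Wst x.1.1.unpair.2.unpair.2 u' (Nat.pair x.1.2 (X.f x.2.1))
      · rw [if_pos g1, if_pos g1]
      · rw [if_neg g1, if_neg g1]
        by_cases g2 : ∃ u ≤ x.2.2, Wst x.1.1.unpair.2.unpair.2 u (Nat.pair x.1.2 (X.f x.2.1))
        · rw [if_pos g2, if_pos g2]
        · rw [if_neg g2, if_neg g2]
    · rw [if_neg g0, if_neg g0]

end

end S5
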