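import Pool.Agent.helper96.S5.SpecR

set_option autoImplicit false

namespace S5

open PF

noncomputable section

open Classical

theorem CNC_mono (X : Cx) (i k z s s' : ℕ) (h : s ≤ s') (hP : X.Ps i k z s) : X.Ps i k z s' := by
  unfold Cx.Ps at hP ⊢
  rcases hP with ⟨h0, h1 | ⟨t, ht, h1⟩⟩ | ⟨h0, h1 | h1⟩ | ⟨h0, h1⟩ | ⟨h0, h1⟩
  · exact Or.inl ⟨h0, Or.inl (Wst_mono h h1)⟩
  · exact Or.inl ⟨h0, Or.inr ⟨t, lt_of_lt_of_le ht h, h1⟩⟩
  · exact Or.inr (Or.inl ⟨h0, Or.inl (Wst_mono h h1)⟩)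
  · exact Or.inr (Or.inl ⟨h0, Or.inr (Wst_mono h h1)⟩)
  · exact Or.inr (Or.inr (Or.inl ⟨h0, Wst_mono h h1⟩))
  · exact Or.inr (Or.inr (Or.inr ⟨h0, h1⟩))

theorem CNC_lt (X : Cx) (i k z s : ℕ) :
    z < X.cnD i k s ↔ ∀ z' ≤ z, z' < s ∧ X.Ps i k z' s := by
  unfold Cx.cnD
  constructor
  · intro h z' hz'
    have h1 := lst_not (lt_of_le_of_lt hz' h)
    rw [not_or, not_not, not_le] at h1
    exact h1
  · intro h
    by_contra hne
    rw [not_lt] at hne
    have hs := lst_spec (Q := fun z => s ≤ z ∨ ¬ X.Ps i k z s) ⟨s, Or.inl le_rfl⟩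
    obtain ⟨h1, h2⟩ := h _ hne
    rcases hs with hs | hs
    · exact absurd h1 (not_lt.2 hs)
    · exact hs h2

theorem CNC_C (X : Cx) (i k : ℕ) : X.B.C i k ↔ ∀ z, ∃ s, X.Ps i k z s := by
  constructor
  · intro h z
    obtain ⟨s, hs⟩ := h z
    exact ⟨s, ((CNC_lt X i k z s).1 hs z le_rfl).2⟩
  · intro h z
    choose f hf using h
    refine ⟨max (z + 1) ((Finset.range (z + 1)).sup f), ?_⟩
    refine (CNC_lt X i k z _).2 fun z' hz' => ⟨?_, ?_⟩
    · exact lt_of_lt_of_le (Nat.lt_succ_of_le hz') (le_max_left _ _)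
    · refine CNC_mono X i k z' (f z') _ ?_ (hf z')
      exact le_trans (Finset.le_sup (f := f) (Finset.mem_range.2 (Nat.lt_succ_of_le hz')))
        (le_max_right _ _)

theorem CNC_row : CNC_stmt := by
  intro X k
  refine ⟨fun a => ?_, fun a a' => ?_, fun b j y => ?_, fun j => ?_⟩
  · rw [CNC_C]
    refine forall_congr' fun z => ?_
    constructor
    · rintro ⟨s, hs⟩
      unfold Cx.Ps pT at hs
      simp only [Nat.unpair_pair] at hs
      rcases hs with ⟨-, h1 | ⟨t, -, h1⟩⟩ | ⟨h0, -⟩ | ⟨h0, -⟩ | ⟨h0, -⟩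
      · exact Or.inl ⟨s, h1⟩
      · exact Or.inr ⟨t, h1⟩
      · exact absurd h0 (by norm_num)
      · exact absurd h0 (by norm_num)
      · exact absurd h0 (by norm_num)
    · rintro (⟨s, hs⟩ | ⟨t, ht⟩)
      · refine ⟨s, Or.inl ?_⟩
        unfold pT
        simp only [Nat.unpair_pair]
        exact ⟨trivial, Or.inl hs⟩
      · refine ⟨t + 1, Or.inl ?_⟩
        unfold pT
        simp only [Nat.unpair_pair]
        exact ⟨trivial, Or.inr ⟨t, Nat.lt_succ_self t, ht⟩⟩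
  · rw [CNC_C]
    refine forall_congr' fun z => ?_
    constructor
    · rintro ⟨s, hs⟩
      unfold Cx.Ps pS at hs
      simp only [Nat.unpair_pair] at hs
      rcases hs with ⟨h0, -⟩ | ⟨-, h1 | h1⟩ | ⟨h0, -⟩ | ⟨h0, -⟩
      · exact absurd h0 (by norm_num)
      · exact Or.inl ⟨s, h1⟩
      · exact Or.inr ⟨s, h1⟩
      · exact absurd h0 (by norm_num)
      · exact absurd h0 (by norm_num)
    · rintro (⟨s, hs⟩ | ⟨s, hs⟩)
      · refine ⟨s, Or.inr (Or.inl ?_)⟩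
        unfold pS
        simp only [Nat.unpair_pair]
        exact ⟨trivial, Or.inl hs⟩
      · refine ⟨s, Or.inr (Or.inl ?_)⟩
        unfold pS
        simp only [Nat.unpair_pair]
        exact ⟨trivial, Or.inr hs⟩
  · rw [CNC_C]
    refine forall_congr' fun z => ?_
    constructor
    · rintro ⟨s, hs⟩
      unfold Cx.Ps pI at hs
      simp only [Nat.unpair_pair] at hs
      rcases hs with ⟨h0, -⟩ | ⟨h0, -⟩ | ⟨-, h1⟩ | ⟨h0, -⟩
      · exact absurd h0 (by norm_num)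
      · exact absurd h0 (by norm_num)
      · exact ⟨s, h1⟩
      · exact absurd h0 (by norm_num)
    · rintro ⟨s, hs⟩
      refine ⟨s, Or.inr (Or.inr (Or.inl ?_))⟩
      unfold pI
      simp only [Nat.unpair_pair]
      exact ⟨trivial, hs⟩
  · rw [CNC_C]
    constructor
    · rintro h ⟨z, hz⟩
      obtain ⟨s, hs⟩ := h z
      unfold Cx.Ps pN at hs
      simp only [Nat.unpair_pair] at hs
      rcases hs with ⟨h0, -⟩ | ⟨h0, -⟩ | ⟨h0, -⟩ | ⟨-, h1⟩
      · exact absurd h0 (by norm_num)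
      · exact absurd h0 (by norm_num)
      · exact absurd h0 (by norm_num)
      · exact h1 hz
    · intro h z
      refine ⟨0, Or.inr (Or.inr (Or.inr ?_))⟩
      unfold pN
      simp only [Nat.unpair_pair]
      exact ⟨by norm_num, fun hz => h ⟨z, hz⟩⟩

end

end S5
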